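import Pool.Agent.H61.SC.Tree

/-!
# Checked boxes, class 3, part 0
-/

set_option autoImplicit false
set_option maxRecDepth 100000

namespace Pool.Agent.H61.SC.D.C3_00

open Pool.Agent.H61.SC

namespace c0
def l0 : Leaf := Leaf.T ⟨757596, 849347, 0, 94435, 0, 94435, 0, 94435, 547362, 705915⟩ 1 false 0 19 286284821112687689728 0 0 0 (-4630263366890291200000) 0x12ebf2ca260781380040000000000040074e51c5adc00000000000312ebf2ca2607213c004000000000004007dfc5622b400000000000312ebf2ca2606c146004000000000004009586b9809400000000000312ebf2ca26066148003ffff9e66a4f400a05d30f6f400000000000312ebf2ca26065948003ffffb36ade1c008e0d73fb8400000000000312ebf2ca26065948003ffffc4d7807c007cd9d1f81400000000000312ebf2ca26065948003ffffd31bd4d4006cc24aec9400000000000312ebf2ca26065938004000000000004005a6484b27c00000000000312ebf2ca260659200040000000000040055b357d2a400000000000312ebf2ca260659080040000000000040058fb4eb66c00000000000312ebf2ca260658f0004000000000004006749b8770c00000000000312ebf2ca260658d8004000000000004006bffa310bc0000000000037ffffff434c18000000000000000003fffff30b076c00555543445c0000000000037ffffffb24038000000000000000003ffffe67466ac00415545a0540000000000037ffffffdeb058000000000000000003ffffda031b2c002ffff256740000000000038000000175408000000000000000003fffffc245af40021554966b40000000000037fffffff05ee8000000000000000003fffff72f98fc0015554ad1140000000000030000000000000000003ffffe7a629c4000bfff6959c000000000003800000000de3900000054fcfaa0000000008a240000000c103a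
def tree : Tree Leaf := (.L 0 l0)
def h0 : PLift (leafOK 3 l0 = true) := ⟨by decide +kernel⟩
def tree_ok : PLift (treeOK 3 Leaf.box tree ⟨757596, 849347, 0, 94435, 0, 1048576, 0, 1048576, 0, 1048576⟩ = true) := ⟨by decide +kernel⟩
theorem leaves_ok : Tree.All (fun l => leafOK 3 l = true) tree := h0.down
end c0

namespace c1
def l0 : Leaf := Leaf.T ⟨849346, 926522, 0, 94435, 0, 94435, 0, 94435, 687969, 829668⟩ 1 false 0 19 556208064779138367488 0 0 0 (-4630263366890291200000) 0x12ebf2ca260781380040000000000040074e51c5adc00000000000312ebf2ca2607213c004000000000004007dfc5622b400000000000312ebf2ca2606c146004000000000004009586b9809400000000000312ebf2ca26066148003ffff9e66a4f400a05d30f6f400000000000312ebf2ca26065948003ffffb36ade1c008e0d73fb8400000000000312ebf2ca26065948003ffffc4d7807c007cd9d1f81400000000000312ebf2ca26065948003ffffd31bd4d4006cc24aec9400000000000312ebf2ca26065938004000000000004005a6484b27c00000000000312ebf2ca260659200040000000000040055b357d2a400000000000312ebf2ca260659080040000000000040058fb4eb66c00000000000312ebf2ca260658f0004000000000004006749b8770c00000000000312ebf2ca260658d8004000000000004006bffa310bc00000000000310000019145fe0017ffffffb24038000000000000000003ffffeb84a1fc00415545a0540000000000037ffffffdeb058000000000000000003ffffe61c98c4002ffff256740000000000038000000175408000000000000000004000000000004002155331e740000000000037fffffff05ee8000000000000000003fffff8b3d2e40015554ad1140000000000037fffffffa9008000000000000000003fffff14abc74000bfff6959c000000000003800000000de390000005f7876a0000000008a240000000d7a12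
def tree : Tree Leaf := (.L 0 l0)
def h0 : PLift (leafOK 3 l0 = true) := ⟨by decide +kernel⟩
def tree_ok : PLift (treeOK 3 Leaf.box tree ⟨849346, 926522, 0, 94435, 0, 1048576, 0, 1048576, 0, 1048576⟩ = true) := ⟨by decide +kernel⟩
theorem leaves_ok : Tree.All (fun l => leafOK 3 l = true) tree := h0.down
end c1

end Pool.Agent.H61.SC.D.C3_00
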