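import Pool.Agent.H61.SC.Asm
import Pool.Agent.H61.SC.D.C3_00

/-!
# The boxes of the class 3
-/

set_option autoImplicit false
set_option maxRecDepth 100000

namespace Pool.Agent.H61.SC.D.Top3

open Pool.Agent.H61.SC

theorem g_C3_00_0 : Good 3 ⟨757596, 849347, 0, 94435, 0, 1048576, 0, 1048576, 0, 1048576⟩ := chunk_good C3_00.c0.tree_ok.down C3_00.c0.leaves_ok
theorem g_C3_00_1 : Good 3 ⟨849346, 926522, 0, 94435, 0, 1048576, 0, 1048576, 0, 1048576⟩ := chunk_good C3_00.c1.tree_ok.down C3_00.c1.leaves_ok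
def t0 : Tree Box := (.L 0 ⟨757596, 849347, 0, 94435, 0, 1048576, 0, 1048576, 0, 1048576⟩)
theorem t0_ok : treeOK 3 id t0 ⟨757596, 849347, 0, 94435, 0, 1048576, 0, 1048576, 0, 1048576⟩ = true := by decide +kernel
theorem t0_good : Good 3 ⟨757596, 849347, 0, 94435, 0, 1048576, 0, 1048576, 0, 1048576⟩ := top_good t0_ok g_C3_00_0
def t1 : Tree Box := (.L 0 ⟨849346, 926522, 0, 94435, 0, 1048576, 0, 1048576, 0, 1048576⟩)
theorem t1_ok : treeOK 3 id t1 ⟨849346, 926522, 0, 94435, 0, 1048576, 0, 1048576, 0, 1048576⟩ = true := by decide +kernel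
theorem t1_good : Good 3 ⟨849346, 926522, 0, 94435, 0, 1048576, 0, 1048576, 0, 1048576⟩ := top_good t1_ok g_C3_00_1
def top : Tree Box := (.S 0 0 849347 (.L 0 ⟨757596, 849347, 0, 94435, 0, 1048576, 0, 1048576, 0, 1048576⟩) (.L 0 ⟨849346, 926522, 0, 94435, 0, 1048576, 0, 1048576, 0, 1048576⟩))
theorem top_ok : treeOK 3 id top ⟨757596, 926522, 0, 94435, 0, 1048576, 0, 1048576, 0, 1048576⟩ = true := by decide +kernel
theorem good : Good 3 ⟨757596, 926522, 0, 94435, 0, 1048576, 0, 1048576, 0, 1048576⟩ := top_good top_ok ⟨t0_good, t1_good⟩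

end Pool.Agent.H61.SC.D.Top3
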