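import Pool.Agent.H61.SC.Asm
import Pool.Agent.H61.SC.D.C6_00
import Pool.Agent.H61.SC.D.C6_01
import Pool.Agent.H61.SC.D.C6_02
import Pool.Agent.H61.SC.D.C6_03
import Pool.Agent.H61.SC.D.C6_04
import Pool.Agent.H61.SC.D.C6_05

/-!
# The boxes of the class 6
-/

set_option autoImplicit false
set_option maxRecDepth 100000

namespace Pool.Agent.H61.SC.D.Top6

open Pool.Agent.H61.SC

theorem g_C6_00_0 : Good 6 ⟨167772, 212337, 0, 1048576, 0, 1048576, 0, 1048576, 0, 1048576⟩ := chunk_good C6_00.c0.tree_ok.down C6_00.c0.leaves_ok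
theorem g_C6_00_1 : Good 6 ⟨212336, 262144, 145125, 262144, 106119, 262144, 0, 205929, 176322, 219233⟩ := chunk_good C6_00.c1.tree_ok.down C6_00.c1.leaves_ok
theorem g_C6_00_2 : Good 6 ⟨212336, 262144, 145125, 262144, 106119, 262144, 0, 205929, 219233, 262144⟩ := chunk_good C6_00.c2.tree_ok.down C6_00.c2.leaves_ok
theorem g_C6_00_3 : Good 6 ⟨262144, 317195, 131308, 317195, 69346, 317195, 0, 206148, 183492, 250343⟩ := chunk_good C6_00.c3.tree_ok.down C6_00.c3.leaves_ok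
theorem g_C6_01_0 : Good 6 ⟨262144, 317195, 131308, 317195, 69346, 317195, 0, 206148, 250343, 317195⟩ := chunk_good C6_01.c0.tree_ok.down C6_01.c0.leaves_ok
theorem g_C6_01_1 : Good 6 ⟨317194, 377488, 117108, 377488, 30315, 349526, 0, 202653, 197768, 283713⟩ := chunk_good C6_01.c1.tree_ok.down C6_01.c1.leaves_ok
theorem g_C6_01_2 : Good 6 ⟨317194, 377488, 230503, 377488, 85229, 347810, 0, 37911, 283713, 305199⟩ := chunk_good C6_01.c2.tree_ok.down C6_01.c2.leaves_ok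
theorem g_C6_01_3 : Good 6 ⟨317194, 377488, 230503, 377488, 85229, 347810, 0, 37911, 305199, 326686⟩ := chunk_good C6_01.c3.tree_ok.down C6_01.c3.leaves_ok
theorem g_C6_01_4 : Good 6 ⟨317194, 377488, 230503, 377488, 47318, 347810, 37911, 151644, 283713, 326686⟩ := chunk_good C6_01.c4.tree_ok.down C6_01.c4.leaves_ok
theorem g_C6_02_0 : Good 6 ⟨317194, 377488, 119497, 377488, 33500, 349526, 0, 193098, 326686, 369659⟩ := chunk_good C6_02.c0.tree_ok.down C6_02.c0.leaves_ok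
theorem g_C6_02_1 : Good 6 ⟨377487, 443024, 105188, 220852, 13941, 267942, 0, 184800, 221794, 272829⟩ := chunk_good C6_02.c1.tree_ok.down C6_02.c1.leaves_ok
theorem g_C6_02_2 : Good 6 ⟨377487, 443024, 220852, 378927, 28522, 267942, 0, 35264, 230658, 272829⟩ := chunk_good C6_02.c2.tree_ok.down C6_02.c2.leaves_ok
theorem g_C6_02_3 : Good 6 ⟨377487, 443024, 220852, 378927, 28522, 267942, 35264, 141058, 230658, 272829⟩ := chunk_good C6_02.c3.tree_ok.down C6_02.c3.leaves_ok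
theorem g_C6_02_4 : Good 6 ⟨377487, 443024, 104137, 443024, 0, 313967, 0, 189003, 272829, 323912⟩ := chunk_good C6_02.c4.tree_ok.down C6_02.c4.leaves_ok
theorem g_C6_03_0 : Good 6 ⟨377487, 443024, 104137, 443024, 0, 335545, 0, 189003, 323912, 375138⟩ := chunk_good C6_03.c0.tree_ok.down C6_03.c0.leaves_ok
theorem g_C6_03_1 : Good 6 ⟨377487, 443024, 104137, 443024, 0, 335545, 0, 189003, 375138, 426365⟩ := chunk_good C6_03.c1.tree_ok.down C6_03.c1.leaves_ok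
theorem g_C6_03_2 : Good 6 ⟨443023, 513803, 90166, 513803, 0, 302777, 0, 174108, 256845, 383214⟩ := chunk_good C6_03.c2.tree_ok.down C6_03.c2.leaves_ok
theorem g_C6_03_3 : Good 6 ⟨443023, 513803, 90166, 513803, 0, 302777, 0, 174108, 383214, 509583⟩ := chunk_good C6_03.c3.tree_ok.down C6_03.c3.leaves_ok
theorem g_C6_04_0 : Good 6 ⟨513802, 589824, 75967, 524288, 0, 267387, 0, 154884, 306096, 441652⟩ := chunk_good C6_04.c0.tree_ok.down C6_04.c0.leaves_ok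
theorem g_C6_04_1 : Good 6 ⟨513802, 589824, 75967, 524288, 0, 267387, 0, 154884, 441652, 577209⟩ := chunk_good C6_04.c1.tree_ok.down C6_04.c1.leaves_ok
theorem g_C6_04_2 : Good 6 ⟨589824, 671089, 60820, 458752, 0, 229376, 0, 134204, 371760, 492092⟩ := chunk_good C6_04.c2.tree_ok.down C6_04.c2.leaves_ok
theorem g_C6_04_3 : Good 6 ⟨589824, 671089, 60820, 458752, 0, 229376, 0, 134204, 492092, 612425⟩ := chunk_good C6_04.c3.tree_ok.down C6_04.c3.leaves_ok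
theorem g_C6_05_0 : Good 6 ⟨671088, 757597, 0, 1048576, 0, 1048576, 0, 1048576, 0, 1048576⟩ := chunk_good C6_05.c0.tree_ok.down C6_05.c0.leaves_ok
theorem g_C6_05_1 : Good 6 ⟨757596, 849347, 0, 1048576, 0, 1048576, 0, 1048576, 0, 1048576⟩ := chunk_good C6_05.c1.tree_ok.down C6_05.c1.leaves_ok
theorem g_C6_05_2 : Good 6 ⟨849346, 926522, 0, 1048576, 0, 1048576, 0, 1048576, 0, 1048576⟩ := chunk_good C6_05.c2.tree_ok.down C6_05.c2.leaves_ok
def t0 : Tree Box := (.L 0 ⟨167772, 212337, 0, 1048576, 0, 1048576, 0, 1048576, 0, 1048576⟩)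
theorem t0_ok : treeOK 6 id t0 ⟨167772, 212337, 0, 1048576, 0, 1048576, 0, 1048576, 0, 1048576⟩ = true := by decide +kernel
theorem t0_good : Good 6 ⟨167772, 212337, 0, 1048576, 0, 1048576, 0, 1048576, 0, 1048576⟩ := top_good t0_ok g_C6_00_0
def t1 : Tree Box := (.S 10 4 219233 (.L 0 ⟨212336, 262144, 145125, 262144, 106119, 262144, 0, 205929, 176322, 219233⟩) (.L 0 ⟨212336, 262144, 145125, 262144, 106119, 262144, 0, 205929, 219233, 262144⟩))
theorem t1_ok : treeOK 6 id t1 ⟨212336, 262144, 0, 1048576, 0, 1048576, 0, 1048576, 0, 1048576⟩ = true := by decide +kernel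
theorem t1_good : Good 6 ⟨212336, 262144, 0, 1048576, 0, 1048576, 0, 1048576, 0, 1048576⟩ := top_good t1_ok ⟨g_C6_00_1, g_C6_00_2⟩
def t2 : Tree Box := (.S 8 4 250343 (.L 0 ⟨262144, 317195, 131308, 317195, 69346, 317195, 0, 206148, 183492, 250343⟩) (.L 0 ⟨262144, 317195, 131308, 317195, 69346, 317195, 0, 206148, 250343, 317195⟩))
theorem t2_ok : treeOK 6 id t2 ⟨262144, 317195, 0, 1048576, 0, 1048576, 0, 1048576, 0, 1048576⟩ = true := by decide +kernel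
theorem t2_good : Good 6 ⟨262144, 317195, 0, 1048576, 0, 1048576, 0, 1048576, 0, 1048576⟩ := top_good t2_ok ⟨g_C6_00_3, g_C6_01_0⟩
def t3 : Tree Box := (.S 7 4 283713 (.L 0 ⟨317194, 377488, 117108, 377488, 30315, 349526, 0, 202653, 197768, 283713⟩) (.S 7 4 326686 (.S 7 1 230503 (.E 10) (.S 6 3 37911 (.S 7 4 305199 (.L 0 ⟨317194, 377488, 230503, 377488, 85229, 347810, 0, 37911, 283713, 305199⟩) (.L 0 ⟨317194, 377488, 230503, 377488, 85229, 347810, 0, 37911, 305199, 326686⟩)) (.L 0 ⟨317194, 377488, 230503, 377488, 47318, 347810, 37911, 151644, 283713, 326686⟩))) (.L 0 ⟨317194, 377488, 119497, 377488, 33500, 349526, 0, 193098, 326686, 369659⟩)))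
theorem t3_ok : treeOK 6 id t3 ⟨317194, 377488, 0, 1048576, 0, 1048576, 0, 1048576, 0, 1048576⟩ = true := by decide +kernel
theorem t3_good : Good 6 ⟨317194, 377488, 0, 1048576, 0, 1048576, 0, 1048576, 0, 1048576⟩ := top_good t3_ok ⟨g_C6_01_1, ⟨⟨trivial, ⟨⟨g_C6_01_2, g_C6_01_3⟩, g_C6_01_4⟩⟩, g_C6_02_0⟩⟩
def t4 : Tree Box := (.S 6 4 323912 (.S 7 4 272829 (.S 8 1 220852 (.L 0 ⟨377487, 443024, 105188, 220852, 13941, 267942, 0, 184800, 221794, 272829⟩) (.S 7 3 35264 (.L 0 ⟨377487, 443024, 220852, 378927, 28522, 267942, 0, 35264, 230658, 272829⟩) (.L 0 ⟨377487, 443024, 220852, 378927, 28522, 267942, 35264, 141058, 230658, 272829⟩))) (.L 0 ⟨377487, 443024, 104137, 443024, 0, 313967, 0, 189003, 272829, 323912⟩)) (.S 6 4 375138 (.L 0 ⟨377487, 443024, 104137, 443024, 0, 335545, 0, 189003, 323912, 375138⟩) (.L 0 ⟨377487, 443024, 104137, 443024, 0, 335545, 0, 189003, 375138, 426365⟩)))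
theorem t4_ok : treeOK 6 id t4 ⟨377487, 443024, 0, 1048576, 0, 1048576, 0, 1048576, 0, 1048576⟩ = true := by decide +kernel
theorem t4_good : Good 6 ⟨377487, 443024, 0, 1048576, 0, 1048576, 0, 1048576, 0, 1048576⟩ := top_good t4_ok ⟨⟨⟨g_C6_02_1, ⟨g_C6_02_2, g_C6_02_3⟩⟩, g_C6_02_4⟩, ⟨g_C6_03_0, g_C6_03_1⟩⟩
def t5 : Tree Box := (.S 6 4 383214 (.L 0 ⟨443023, 513803, 90166, 513803, 0, 302777, 0, 174108, 256845, 383214⟩) (.L 0 ⟨443023, 513803, 90166, 513803, 0, 302777, 0, 174108, 383214, 509583⟩))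
theorem t5_ok : treeOK 6 id t5 ⟨443023, 513803, 0, 1048576, 0, 1048576, 0, 1048576, 0, 1048576⟩ = true := by decide +kernel
theorem t5_good : Good 6 ⟨443023, 513803, 0, 1048576, 0, 1048576, 0, 1048576, 0, 1048576⟩ := top_good t5_ok ⟨g_C6_03_2, g_C6_03_3⟩
def t6 : Tree Box := (.S 6 4 441652 (.L 0 ⟨513802, 589824, 75967, 524288, 0, 267387, 0, 154884, 306096, 441652⟩) (.L 0 ⟨513802, 589824, 75967, 524288, 0, 267387, 0, 154884, 441652, 577209⟩))
theorem t6_ok : treeOK 6 id t6 ⟨513802, 589824, 0, 1048576, 0, 1048576, 0, 1048576, 0, 1048576⟩ = true := by decide +kernel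
theorem t6_good : Good 6 ⟨513802, 589824, 0, 1048576, 0, 1048576, 0, 1048576, 0, 1048576⟩ := top_good t6_ok ⟨g_C6_04_0, g_C6_04_1⟩
def t7 : Tree Box := (.S 6 4 492092 (.L 0 ⟨589824, 671089, 60820, 458752, 0, 229376, 0, 134204, 371760, 492092⟩) (.L 0 ⟨589824, 671089, 60820, 458752, 0, 229376, 0, 134204, 492092, 612425⟩))
theorem t7_ok : treeOK 6 id t7 ⟨589824, 671089, 0, 1048576, 0, 1048576, 0, 1048576, 0, 1048576⟩ = true := by decide +kernel
theorem t7_good : Good 6 ⟨589824, 671089, 0, 1048576, 0, 1048576, 0, 1048576, 0, 1048576⟩ := top_good t7_ok ⟨g_C6_04_2, g_C6_04_3⟩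
def t8 : Tree Box := (.L 0 ⟨671088, 757597, 0, 1048576, 0, 1048576, 0, 1048576, 0, 1048576⟩)
theorem t8_ok : treeOK 6 id t8 ⟨671088, 757597, 0, 1048576, 0, 1048576, 0, 1048576, 0, 1048576⟩ = true := by decide +kernel
theorem t8_good : Good 6 ⟨671088, 757597, 0, 1048576, 0, 1048576, 0, 1048576, 0, 1048576⟩ := top_good t8_ok g_C6_05_0
def t9 : Tree Box := (.L 0 ⟨757596, 849347, 0, 1048576, 0, 1048576, 0, 1048576, 0, 1048576⟩)
theorem t9_ok : treeOK 6 id t9 ⟨757596, 849347, 0, 1048576, 0, 1048576, 0, 1048576, 0, 1048576⟩ = true := by decide +kernel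
theorem t9_good : Good 6 ⟨757596, 849347, 0, 1048576, 0, 1048576, 0, 1048576, 0, 1048576⟩ := top_good t9_ok g_C6_05_1
def t10 : Tree Box := (.L 0 ⟨849346, 926522, 0, 1048576, 0, 1048576, 0, 1048576, 0, 1048576⟩)
theorem t10_ok : treeOK 6 id t10 ⟨849346, 926522, 0, 1048576, 0, 1048576, 0, 1048576, 0, 1048576⟩ = true := by decide +kernel
theorem t10_good : Good 6 ⟨849346, 926522, 0, 1048576, 0, 1048576, 0, 1048576, 0, 1048576⟩ := top_good t10_ok g_C6_05_2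
def top : Tree Box := (.S 0 0 212337 (.L 0 ⟨167772, 212337, 0, 1048576, 0, 1048576, 0, 1048576, 0, 1048576⟩) (.S 0 0 262144 (.L 0 ⟨212336, 262144, 0, 1048576, 0, 1048576, 0, 1048576, 0, 1048576⟩) (.S 0 0 317195 (.L 0 ⟨262144, 317195, 0, 1048576, 0, 1048576, 0, 1048576, 0, 1048576⟩) (.S 0 0 377488 (.L 0 ⟨317194, 377488, 0, 1048576, 0, 1048576, 0, 1048576, 0, 1048576⟩) (.S 0 0 443024 (.L 0 ⟨377487, 443024, 0, 1048576, 0, 1048576, 0, 1048576, 0, 1048576⟩) (.S 0 0 513803 (.L 0 ⟨443023, 513803, 0, 1048576, 0, 1048576, 0, 1048576, 0, 1048576⟩) (.S 0 0 589824 (.L 0 ⟨513802, 589824, 0, 1048576, 0, 1048576, 0, 1048576, 0, 1048576⟩) (.S 0 0 671089 (.L 0 ⟨589824, 671089, 0, 1048576, 0, 1048576, 0, 1048576, 0, 1048576⟩) (.S 0 0 757597 (.L 0 ⟨671088, 757597, 0, 1048576, 0, 1048576, 0, 1048576, 0, 1048576⟩) (.S 0 0 849347 (.L 0 ⟨757596, 849347, 0, 1048576, 0, 1048576, 0, 1048576, 0, 1048576⟩) (.L 0 ⟨849346, 926522,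 0, 1048576, 0, 1048576, 0, 1048576, 0, 1048576⟩)))))))))))
theorem top_ok : treeOK 6 id top ⟨167772, 926522, 0, 1048576, 0, 1048576, 0, 1048576, 0, 1048576⟩ = true := by decide +kernel
theorem good : Good 6 ⟨167772, 926522, 0, 1048576, 0, 1048576, 0, 1048576, 0, 1048576⟩ := top_good top_ok ⟨t0_good, ⟨t1_good, ⟨t2_good, ⟨t3_good, ⟨t4_good, ⟨t5_good, ⟨t6_good, ⟨t7_good, ⟨t8_good, ⟨t9_good, t10_good⟩⟩⟩⟩⟩⟩⟩⟩⟩⟩

end Pool.Agent.H61.SC.D.Top6
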