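import Pool.Agent.H61.SC.Asm
import Pool.Agent.H61.SC.D.C7_00
import Pool.Agent.H61.SC.D.C7_01
import Pool.Agent.H61.SC.D.C7_02
import Pool.Agent.H61.SC.D.C7_03

/-!
# The boxes of the class 7
-/

set_option autoImplicit false
set_option maxRecDepth 100000

namespace Pool.Agent.H61.SC.D.Top7

open Pool.Agent.H61.SC

theorem g_C7_00_0 : Good 7 ⟨143550, 212337, 0, 1048576, 0, 1048576, 0, 1048576, 0, 1048576⟩ := chunk_good C7_00.c0.tree_ok.down C7_00.c0.leaves_ok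
theorem g_C7_00_1 : Good 7 ⟨212336, 262144, 0, 1048576, 0, 1048576, 0, 1048576, 0, 1048576⟩ := chunk_good C7_00.c1.tree_ok.down C7_00.c1.leaves_ok
theorem g_C7_00_2 : Good 7 ⟨262144, 317195, 0, 1048576, 0, 1048576, 0, 1048576, 0, 1048576⟩ := chunk_good C7_00.c2.tree_ok.down C7_00.c2.leaves_ok
theorem g_C7_00_3 : Good 7 ⟨317194, 377488, 103915, 377488, 35522, 349526, 0, 151512, 180492, 275075⟩ := chunk_good C7_00.c3.tree_ok.down C7_00.c3.leaves_ok
theorem g_C7_00_4 : Good 7 ⟨317194, 377488, 104699, 377488, 36502, 349526, 0, 147590, 275075, 322367⟩ := chunk_good C7_00.c4.tree_ok.down C7_00.c4.leaves_ok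
theorem g_C7_01_0 : Good 7 ⟨317194, 377488, 104699, 377488, 36502, 349526, 0, 147590, 322367, 369659⟩ := chunk_good C7_01.c0.tree_ok.down C7_01.c0.leaves_ok
theorem g_C7_01_1 : Good 7 ⟨377487, 443024, 92502, 435515, 6749, 307955, 0, 143040, 207402, 262091⟩ := chunk_good C7_01.c1.tree_ok.down C7_01.c1.leaves_ok
theorem g_C7_01_2 : Good 7 ⟨377487, 443024, 92502, 435515, 6749, 307955, 0, 143040, 262091, 316781⟩ := chunk_good C7_01.c2.tree_ok.down C7_01.c2.leaves_ok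
theorem g_C7_01_3 : Good 7 ⟨377487, 443024, 91933, 443024, 4161, 335545, 0, 145884, 316781, 426365⟩ := chunk_good C7_01.c3.tree_ok.down C7_01.c3.leaves_ok
theorem g_C7_01_4 : Good 7 ⟨443023, 513803, 80510, 513803, 0, 302777, 0, 132220, 245233, 377408⟩ := chunk_good C7_01.c4.tree_ok.down C7_01.c4.leaves_ok
theorem g_C7_02_0 : Good 7 ⟨443023, 513803, 80510, 513803, 0, 302777, 0, 132220, 377408, 509583⟩ := chunk_good C7_02.c0.tree_ok.down C7_02.c0.leaves_ok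
theorem g_C7_02_1 : Good 7 ⟨513802, 589824, 0, 1048576, 0, 1048576, 0, 1048576, 0, 1048576⟩ := chunk_good C7_02.c1.tree_ok.down C7_02.c1.leaves_ok
theorem g_C7_02_2 : Good 7 ⟨589824, 671089, 55187, 458752, 0, 229376, 0, 101549, 365096, 488760⟩ := chunk_good C7_02.c2.tree_ok.down C7_02.c2.leaves_ok
theorem g_C7_02_3 : Good 7 ⟨589824, 671089, 55187, 458752, 0, 229376, 0, 101549, 488760, 612425⟩ := chunk_good C7_02.c3.tree_ok.down C7_02.c3.leaves_ok
theorem g_C7_03_0 : Good 7 ⟨671088, 757597, 0, 1048576, 0, 1048576, 0, 1048576, 0, 1048576⟩ := chunk_good C7_03.c0.tree_ok.down C7_03.c0.leaves_ok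
theorem g_C7_03_1 : Good 7 ⟨757596, 849347, 0, 1048576, 0, 1048576, 0, 1048576, 0, 1048576⟩ := chunk_good C7_03.c1.tree_ok.down C7_03.c1.leaves_ok
theorem g_C7_03_2 : Good 7 ⟨849346, 926522, 0, 1048576, 0, 1048576, 0, 1048576, 0, 1048576⟩ := chunk_good C7_03.c2.tree_ok.down C7_03.c2.leaves_ok
def t0 : Tree Box := (.L 0 ⟨143550, 212337, 0, 1048576, 0, 1048576, 0, 1048576, 0, 1048576⟩)
theorem t0_ok : treeOK 7 id t0 ⟨143550, 212337, 0, 1048576, 0, 1048576, 0, 1048576, 0, 1048576⟩ = true := by decide +kernel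
theorem t0_good : Good 7 ⟨143550, 212337, 0, 1048576, 0, 1048576, 0, 1048576, 0, 1048576⟩ := top_good t0_ok g_C7_00_0
def t1 : Tree Box := (.L 0 ⟨212336, 262144, 0, 1048576, 0, 1048576, 0, 1048576, 0, 1048576⟩)
theorem t1_ok : treeOK 7 id t1 ⟨212336, 262144, 0, 1048576, 0, 1048576, 0, 1048576, 0, 1048576⟩ = true := by decide +kernel
theorem t1_good : Good 7 ⟨212336, 262144, 0, 1048576, 0, 1048576, 0, 1048576, 0, 1048576⟩ := top_good t1_ok g_C7_00_1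
def t2 : Tree Box := (.L 0 ⟨262144, 317195, 0, 1048576, 0, 1048576, 0, 1048576, 0, 1048576⟩)
theorem t2_ok : treeOK 7 id t2 ⟨262144, 317195, 0, 1048576, 0, 1048576, 0, 1048576, 0, 1048576⟩ = true := by decide +kernel
theorem t2_good : Good 7 ⟨262144, 317195, 0, 1048576, 0, 1048576, 0, 1048576, 0, 1048576⟩ := top_good t2_ok g_C7_00_2
def t3 : Tree Box := (.S 6 4 275075 (.L 0 ⟨317194, 377488, 103915, 377488, 35522, 349526, 0, 151512, 180492, 275075⟩) (.S 6 4 322367 (.L 0 ⟨317194, 377488, 104699, 377488, 36502, 349526, 0, 147590, 275075, 322367⟩) (.L 0 ⟨317194, 377488, 104699, 377488, 36502, 349526, 0, 147590, 322367, 369659⟩)))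
theorem t3_ok : treeOK 7 id t3 ⟨317194, 377488, 0, 1048576, 0, 1048576, 0, 1048576, 0, 1048576⟩ = true := by decide +kernel
theorem t3_good : Good 7 ⟨317194, 377488, 0, 1048576, 0, 1048576, 0, 1048576, 0, 1048576⟩ := top_good t3_ok ⟨g_C7_00_3, ⟨g_C7_00_4, g_C7_01_0⟩⟩
def t4 : Tree Box := (.S 5 4 316781 (.S 6 4 262091 (.L 0 ⟨377487, 443024, 92502, 435515, 6749, 307955, 0, 143040, 207402, 262091⟩) (.L 0 ⟨377487, 443024, 92502, 435515, 6749, 307955, 0, 143040, 262091, 316781⟩)) (.L 0 ⟨377487, 443024, 91933, 443024, 4161, 335545, 0, 145884, 316781, 426365⟩))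
theorem t4_ok : treeOK 7 id t4 ⟨377487, 443024, 0, 1048576, 0, 1048576, 0, 1048576, 0, 1048576⟩ = true := by decide +kernel
theorem t4_good : Good 7 ⟨377487, 443024, 0, 1048576, 0, 1048576, 0, 1048576, 0, 1048576⟩ := top_good t4_ok ⟨⟨g_C7_01_1, g_C7_01_2⟩, g_C7_01_3⟩
def t5 : Tree Box := (.S 5 4 377408 (.L 0 ⟨443023, 513803, 80510, 513803, 0, 302777, 0, 132220, 245233, 377408⟩) (.L 0 ⟨443023, 513803, 80510, 513803, 0, 302777, 0, 132220, 377408, 509583⟩))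
theorem t5_ok : treeOK 7 id t5 ⟨443023, 513803, 0, 1048576, 0, 1048576, 0, 1048576, 0, 1048576⟩ = true := by decide +kernel
theorem t5_good : Good 7 ⟨443023, 513803, 0, 1048576, 0, 1048576, 0, 1048576, 0, 1048576⟩ := top_good t5_ok ⟨g_C7_01_4, g_C7_02_0⟩
def t6 : Tree Box := (.L 0 ⟨513802, 589824, 0, 1048576, 0, 1048576, 0, 1048576, 0, 1048576⟩)
theorem t6_ok : treeOK 7 id t6 ⟨513802, 589824, 0, 1048576, 0, 1048576, 0, 1048576, 0, 1048576⟩ = true := by decide +kernel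
theorem t6_good : Good 7 ⟨513802, 589824, 0, 1048576, 0, 1048576, 0, 1048576, 0, 1048576⟩ := top_good t6_ok g_C7_02_1
def t7 : Tree Box := (.S 5 4 488760 (.L 0 ⟨589824, 671089, 55187, 458752, 0, 229376, 0, 101549, 365096, 488760⟩) (.L 0 ⟨589824, 671089, 55187, 458752, 0, 229376, 0, 101549, 488760, 612425⟩))
theorem t7_ok : treeOK 7 id t7 ⟨589824, 671089, 0, 1048576, 0, 1048576, 0, 1048576, 0, 1048576⟩ = true := by decide +kernel
theorem t7_good : Good 7 ⟨589824, 671089, 0, 1048576, 0, 1048576, 0, 1048576, 0, 1048576⟩ := top_good t7_ok ⟨g_C7_02_2, g_C7_02_3⟩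
def t8 : Tree Box := (.L 0 ⟨671088, 757597, 0, 1048576, 0, 1048576, 0, 1048576, 0, 1048576⟩)
theorem t8_ok : treeOK 7 id t8 ⟨671088, 757597, 0, 1048576, 0, 1048576, 0, 1048576, 0, 1048576⟩ = true := by decide +kernel
theorem t8_good : Good 7 ⟨671088, 757597, 0, 1048576, 0, 1048576, 0, 1048576, 0, 1048576⟩ := top_good t8_ok g_C7_03_0
def t9 : Tree Box := (.L 0 ⟨757596, 849347, 0, 1048576, 0, 1048576, 0, 1048576, 0, 1048576⟩)
theorem t9_ok : treeOK 7 id t9 ⟨757596, 849347, 0, 1048576, 0, 1048576, 0, 1048576, 0, 1048576⟩ = true := by decide +kernel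
theorem t9_good : Good 7 ⟨757596, 849347, 0, 1048576, 0, 1048576, 0, 1048576, 0, 1048576⟩ := top_good t9_ok g_C7_03_1
def t10 : Tree Box := (.L 0 ⟨849346, 926522, 0, 1048576, 0, 1048576, 0, 1048576, 0, 1048576⟩)
theorem t10_ok : treeOK 7 id t10 ⟨849346, 926522, 0, 1048576, 0, 1048576, 0, 1048576, 0, 1048576⟩ = true := by decide +kernel
theorem t10_good : Good 7 ⟨849346, 926522, 0, 1048576, 0, 1048576, 0, 1048576, 0, 1048576⟩ := top_good t10_ok g_C7_03_2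
def top : Tree Box := (.S 0 0 212337 (.L 0 ⟨143550, 212337, 0, 1048576, 0, 1048576, 0, 1048576, 0, 1048576⟩) (.S 0 0 262144 (.L 0 ⟨212336, 262144, 0, 1048576, 0, 1048576, 0, 1048576, 0, 1048576⟩) (.S 0 0 317195 (.L 0 ⟨262144, 317195, 0, 1048576, 0, 1048576, 0, 1048576, 0, 1048576⟩) (.S 0 0 377488 (.L 0 ⟨317194, 377488, 0, 1048576, 0, 1048576, 0, 1048576, 0, 1048576⟩) (.S 0 0 443024 (.L 0 ⟨377487, 443024, 0, 1048576, 0, 1048576, 0, 1048576, 0, 1048576⟩) (.S 0 0 513803 (.L 0 ⟨443023, 513803, 0, 1048576, 0, 1048576, 0, 1048576, 0, 1048576⟩) (.S 0 0 589824 (.L 0 ⟨513802, 589824, 0, 1048576, 0, 1048576, 0, 1048576, 0, 1048576⟩) (.S 0 0 671089 (.L 0 ⟨589824, 671089, 0, 1048576, 0, 1048576, 0, 1048576, 0, 1048576⟩) (.S 0 0 757597 (.L 0 ⟨671088, 757597, 0, 1048576, 0, 1048576, 0, 1048576, 0, 1048576⟩) (.S 0 0 849347 (.L 0 ⟨757596, 849347, 0, 1048576, 0, 1048576, 0, 1048576, 0, 1048576⟩) (.L 0 ⟨849346,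 926522, 0, 1048576, 0, 1048576, 0, 1048576, 0, 1048576⟩)))))))))))
theorem top_ok : treeOK 7 id top ⟨143550, 926522, 0, 1048576, 0, 1048576, 0, 1048576, 0, 1048576⟩ = true := by decide +kernel
theorem good : Good 7 ⟨143550, 926522, 0, 1048576, 0, 1048576, 0, 1048576, 0, 1048576⟩ := top_good top_ok ⟨t0_good, ⟨t1_good, ⟨t2_good, ⟨t3_good, ⟨t4_good, ⟨t5_good, ⟨t6_good, ⟨t7_good, ⟨t8_good, ⟨t9_good, t10_good⟩⟩⟩⟩⟩⟩⟩⟩⟩⟩

end Pool.Agent.H61.SC.D.Top7
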