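import Pool.Agent.H61.SC.Asm
import Pool.Agent.H61.SC.D.C8_00
import Pool.Agent.H61.SC.D.C8_01
import Pool.Agent.H61.SC.D.C8_02
import Pool.Agent.H61.SC.D.C8_03
import Pool.Agent.H61.SC.D.C8_04
import Pool.Agent.H61.SC.D.C8_05
import Pool.Agent.H61.SC.D.C8_06
import Pool.Agent.H61.SC.D.C8_07
import Pool.Agent.H61.SC.D.C8_08
import Pool.Agent.H61.SC.D.C8_09
import Pool.Agent.H61.SC.D.C8_10
import Pool.Agent.H61.SC.D.C8_11
import Pool.Agent.H61.SC.D.C8_12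

/-!
# The boxes of the class 8
-/

set_option autoImplicit false
set_option maxRecDepth 100000

namespace Pool.Agent.H61.SC.D.Top8

open Pool.Agent.H61.SC

theorem g_C8_00_0 : Good 8 ⟨0, 10486, 0, 1048576, 0, 1048576, 0, 1048576, 0, 1048576⟩ := chunk_good C8_00.c0.tree_ok.down C8_00.c0.leaves_ok
theorem g_C8_00_1 : Good 8 ⟨10485, 41944, 0, 1048576, 0, 1048576, 0, 1048576, 0, 1048576⟩ := chunk_good C8_00.c1.tree_ok.down C8_00.c1.leaves_ok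
theorem g_C8_00_2 : Good 8 ⟨41943, 94372, 0, 94372, 0, 94372, 0, 94372, 1677, 48024⟩ := chunk_good C8_00.c2.tree_ok.down C8_00.c2.leaves_ok
theorem g_C8_00_3 : Good 8 ⟨41943, 65536, 0, 94372, 0, 94372, 0, 94372, 48024, 94372⟩ := chunk_good C8_00.c3.tree_ok.down C8_00.c3.leaves_ok
theorem g_C8_00_4 : Good 8 ⟨65536, 94372, 0, 94372, 0, 94372, 0, 94372, 48024, 94372⟩ := chunk_good C8_00.c4.tree_ok.down C8_00.c4.leaves_ok
theorem g_C8_00_5 : Good 8 ⟨94371, 167773, 0, 167773, 0, 167773, 0, 167773, 8493, 48313⟩ := chunk_good C8_00.c5.tree_ok.down C8_00.c5.leaves_ok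
theorem g_C8_01_0 : Good 8 ⟨94371, 167773, 0, 167773, 0, 167773, 0, 167773, 48313, 88133⟩ := chunk_good C8_01.c0.tree_ok.down C8_01.c0.leaves_ok
theorem g_C8_01_1 : Good 8 ⟨94371, 128450, 0, 167773, 0, 167773, 0, 167773, 88133, 127953⟩ := chunk_good C8_01.c1.tree_ok.down C8_01.c1.leaves_ok
theorem g_C8_01_2 : Good 8 ⟨128450, 167773, 0, 167773, 0, 167773, 0, 167773, 88133, 127953⟩ := chunk_good C8_01.c2.tree_ok.down C8_01.c2.leaves_ok
theorem g_C8_01_3 : Good 8 ⟨94371, 128450, 0, 167773, 0, 167773, 0, 167773, 127953, 167773⟩ := chunk_good C8_01.c3.tree_ok.down C8_01.c3.leaves_ok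
theorem g_C8_02_0 : Good 8 ⟨128450, 167773, 0, 167773, 0, 167773, 0, 41943, 127953, 167773⟩ := chunk_good C8_02.c0.tree_ok.down C8_02.c0.leaves_ok
theorem g_C8_02_1 : Good 8 ⟨128450, 167773, 0, 167773, 0, 167773, 41943, 167773, 127953, 167773⟩ := chunk_good C8_02.c1.tree_ok.down C8_02.c1.leaves_ok
theorem g_C8_02_2 : Good 8 ⟨167772, 262144, 0, 262144, 0, 248360, 0, 176161, 26843, 85668⟩ := chunk_good C8_02.c2.tree_ok.down C8_02.c2.leaves_ok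
theorem g_C8_02_3 : Good 8 ⟨167772, 262144, 0, 262144, 0, 215085, 0, 44040, 85668, 115080⟩ := chunk_good C8_02.c3.tree_ok.down C8_02.c3.leaves_ok
theorem g_C8_03_0 : Good 8 ⟨167772, 262144, 0, 262144, 0, 215085, 44040, 176161, 85668, 115080⟩ := chunk_good C8_03.c0.tree_ok.down C8_03.c0.leaves_ok
theorem g_C8_03_1 : Good 8 ⟨167772, 212337, 0, 262144, 0, 248360, 0, 44040, 115080, 144493⟩ := chunk_good C8_03.c1.tree_ok.down C8_03.c1.leaves_ok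
theorem g_C8_03_2 : Good 8 ⟨212337, 262144, 0, 262144, 0, 230679, 0, 44040, 115080, 129786⟩ := chunk_good C8_03.c2.tree_ok.down C8_03.c2.leaves_ok
theorem g_C8_03_3 : Good 8 ⟨212337, 262144, 0, 262144, 0, 230679, 0, 11010, 129786, 144493⟩ := chunk_good C8_03.c3.tree_ok.down C8_03.c3.leaves_ok
theorem g_C8_04_0 : Good 8 ⟨212337, 262144, 0, 262144, 0, 230679, 11010, 44040, 129786, 144493⟩ := chunk_good C8_04.c0.tree_ok.down C8_04.c0.leaves_ok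
theorem g_C8_04_1 : Good 8 ⟨167772, 212337, 44040, 262144, 44040, 248360, 44040, 158545, 115080, 144493⟩ := chunk_good C8_04.c1.tree_ok.down C8_04.c1.leaves_ok
theorem g_C8_04_2 : Good 8 ⟨212337, 262144, 44040, 262144, 44040, 248360, 44040, 158545, 115080, 144493⟩ := chunk_good C8_04.c2.tree_ok.down C8_04.c2.leaves_ok
theorem g_C8_04_3 : Good 8 ⟨167772, 212337, 0, 262144, 0, 262144, 0, 44040, 144493, 173905⟩ := chunk_good C8_04.c3.tree_ok.down C8_04.c3.leaves_ok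
theorem g_C8_05_0 : Good 8 ⟨212337, 262144, 0, 262144, 0, 246826, 0, 11010, 144493, 159199⟩ := chunk_good C8_05.c0.tree_ok.down C8_05.c0.leaves_ok
theorem g_C8_05_1 : Good 8 ⟨212337, 262144, 0, 262144, 0, 246826, 11010, 44040, 144493, 159199⟩ := chunk_good C8_05.c1.tree_ok.down C8_05.c1.leaves_ok
theorem g_C8_05_2 : Good 8 ⟨212337, 262144, 0, 262144, 0, 261979, 0, 44040, 159199, 173905⟩ := chunk_good C8_05.c2.tree_ok.down C8_05.c2.leaves_ok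
theorem g_C8_05_3 : Good 8 ⟨167772, 262144, 0, 262144, 0, 262144, 44040, 176161, 144493, 173905⟩ := chunk_good C8_05.c3.tree_ok.down C8_05.c3.leaves_ok
theorem g_C8_05_4 : Good 8 ⟨167772, 262144, 0, 262144, 0, 262144, 0, 176161, 173905, 203318⟩ := chunk_good C8_05.c4.tree_ok.down C8_05.c4.leaves_ok
theorem g_C8_05_5 : Good 8 ⟨167772, 262144, 0, 262144, 0, 262144, 0, 176161, 203318, 262144⟩ := chunk_good C8_05.c5.tree_ok.down C8_05.c5.leaves_ok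
theorem g_C8_06_0 : Good 8 ⟨262144, 317195, 0, 317195, 0, 256848, 0, 157287, 65536, 128450⟩ := chunk_good C8_06.c0.tree_ok.down C8_06.c0.leaves_ok
theorem g_C8_06_1 : Good 8 ⟨262144, 317195, 0, 79299, 0, 256848, 0, 157287, 128450, 191365⟩ := chunk_good C8_06.c1.tree_ok.down C8_06.c1.leaves_ok
theorem g_C8_06_2 : Good 8 ⟨262144, 317195, 79299, 178422, 0, 256848, 0, 141427, 128450, 191365⟩ := chunk_good C8_06.c2.tree_ok.down C8_06.c2.leaves_ok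
theorem g_C8_06_3 : Good 8 ⟨262144, 317195, 178422, 317195, 0, 256848, 0, 121602, 128450, 159907⟩ := chunk_good C8_06.c3.tree_ok.down C8_06.c3.leaves_ok
theorem g_C8_06_4 : Good 8 ⟨262144, 317195, 178422, 317195, 0, 256848, 0, 121602, 159907, 191365⟩ := chunk_good C8_06.c4.tree_ok.down C8_06.c4.leaves_ok
theorem g_C8_06_5 : Good 8 ⟨262144, 317195, 0, 317195, 0, 317195, 0, 157287, 191365, 317195⟩ := chunk_good C8_06.c5.tree_ok.down C8_06.c5.leaves_ok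
theorem g_C8_07_0 : Good 8 ⟨317194, 377488, 0, 377488, 0, 267864, 0, 146277, 95951, 164378⟩ := chunk_good C8_07.c0.tree_ok.down C8_07.c0.leaves_ok
theorem g_C8_07_1 : Good 8 ⟨317194, 377488, 0, 94372, 0, 267864, 0, 146277, 164378, 232805⟩ := chunk_good C8_07.c1.tree_ok.down C8_07.c1.leaves_ok
theorem g_C8_07_2 : Good 8 ⟨317194, 377488, 94372, 212337, 0, 267864, 0, 127402, 164378, 232805⟩ := chunk_good C8_07.c2.tree_ok.down C8_07.c2.leaves_ok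
theorem g_C8_07_3 : Good 8 ⟨317194, 377488, 212337, 377488, 0, 267864, 0, 103809, 164378, 198591⟩ := chunk_good C8_07.c3.tree_ok.down C8_07.c3.leaves_ok
theorem g_C8_07_4 : Good 8 ⟨317194, 377488, 212337, 377488, 0, 267864, 0, 103809, 198591, 232805⟩ := chunk_good C8_07.c4.tree_ok.down C8_07.c4.leaves_ok
theorem g_C8_07_5 : Good 8 ⟨317194, 377488, 0, 377488, 0, 349526, 0, 146277, 232805, 301232⟩ := chunk_good C8_07.c5.tree_ok.down C8_07.c5.leaves_ok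
theorem g_C8_08_0 : Good 8 ⟨317194, 377488, 0, 377488, 0, 349526, 0, 146277, 301232, 369659⟩ := chunk_good C8_08.c0.tree_ok.down C8_08.c0.leaves_ok
theorem g_C8_08_1 : Good 8 ⟨377487, 443024, 0, 390244, 0, 275944, 0, 134218, 135895, 208512⟩ := chunk_good C8_08.c1.tree_ok.down C8_08.c1.leaves_ok
theorem g_C8_08_2 : Good 8 ⟨377487, 443024, 0, 97561, 0, 275944, 0, 134218, 208512, 281130⟩ := chunk_good C8_08.c2.tree_ok.down C8_08.c2.leaves_ok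
theorem g_C8_08_3 : Good 8 ⟨377487, 443024, 97561, 219512, 0, 275944, 0, 114706, 208512, 281130⟩ := chunk_good C8_08.c3.tree_ok.down C8_08.c3.leaves_ok
theorem g_C8_09_0 : Good 8 ⟨377487, 443024, 219512, 390244, 0, 275944, 0, 114706, 208512, 281130⟩ := chunk_good C8_09.c0.tree_ok.down C8_09.c0.leaves_ok
theorem g_C8_09_1 : Good 8 ⟨377487, 443024, 0, 443024, 0, 335545, 0, 134218, 281130, 353747⟩ := chunk_good C8_09.c1.tree_ok.down C8_09.c1.leaves_ok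
theorem g_C8_09_2 : Good 8 ⟨377487, 443024, 0, 443024, 0, 335545, 0, 134218, 353747, 426365⟩ := chunk_good C8_09.c2.tree_ok.down C8_09.c2.leaves_ok
theorem g_C8_09_3 : Good 8 ⟨443023, 513803, 0, 411137, 0, 290718, 0, 121111, 187177, 267778⟩ := chunk_good C8_09.c3.tree_ok.down C8_09.c3.leaves_ok
theorem g_C8_10_0 : Good 8 ⟨443023, 513803, 0, 411137, 0, 290718, 0, 121111, 267778, 348380⟩ := chunk_good C8_10.c0.tree_ok.down C8_10.c0.leaves_ok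
theorem g_C8_10_1 : Good 8 ⟨443023, 513803, 0, 513803, 0, 302777, 0, 121111, 348380, 428981⟩ := chunk_good C8_10.c1.tree_ok.down C8_10.c1.leaves_ok
theorem g_C8_10_2 : Good 8 ⟨443023, 513803, 0, 513803, 0, 302777, 0, 121111, 428981, 509583⟩ := chunk_good C8_10.c2.tree_ok.down C8_10.c2.leaves_ok
theorem g_C8_10_3 : Good 8 ⟨513802, 589824, 0, 524288, 0, 267387, 0, 106955, 251762, 414485⟩ := chunk_good C8_10.c3.tree_ok.down C8_10.c3.leaves_ok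
theorem g_C8_10_4 : Good 8 ⟨513802, 589824, 0, 524288, 0, 267387, 0, 106955, 414485, 495847⟩ := chunk_good C8_10.c4.tree_ok.down C8_10.c4.leaves_ok
theorem g_C8_11_0 : Good 8 ⟨513802, 589824, 0, 524288, 0, 267387, 0, 106955, 495847, 577209⟩ := chunk_good C8_11.c0.tree_ok.down C8_11.c0.leaves_ok
theorem g_C8_11_1 : Good 8 ⟨589824, 671089, 0, 458752, 0, 229376, 0, 91751, 331776, 472100⟩ := chunk_good C8_11.c1.tree_ok.down C8_11.c1.leaves_ok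
theorem g_C8_11_2 : Good 8 ⟨589824, 671089, 0, 458752, 0, 229376, 0, 91751, 472100, 612425⟩ := chunk_good C8_11.c2.tree_ok.down C8_11.c2.leaves_ok
theorem g_C8_11_3 : Good 8 ⟨671088, 757597, 0, 377488, 0, 188744, 0, 75498, 429495, 548592⟩ := chunk_good C8_11.c3.tree_ok.down C8_11.c3.leaves_ok
theorem g_C8_12_0 : Good 8 ⟨671088, 757597, 0, 377488, 0, 188744, 0, 75498, 548592, 667689⟩ := chunk_good C8_12.c0.tree_ok.down C8_12.c0.leaves_ok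
theorem g_C8_12_1 : Good 8 ⟨757596, 849347, 0, 1048576, 0, 1048576, 0, 1048576, 0, 1048576⟩ := chunk_good C8_12.c1.tree_ok.down C8_12.c1.leaves_ok
theorem g_C8_12_2 : Good 8 ⟨849346, 926522, 0, 1048576, 0, 1048576, 0, 1048576, 0, 1048576⟩ := chunk_good C8_12.c2.tree_ok.down C8_12.c2.leaves_ok
def t0 : Tree Box := (.L 0 ⟨0, 10486, 0, 1048576, 0, 1048576, 0, 1048576, 0, 1048576⟩)
theorem t0_ok : treeOK 8 id t0 ⟨0, 10486, 0, 1048576, 0, 1048576, 0, 1048576, 0, 1048576⟩ = true := by decide +kernel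
theorem t0_good : Good 8 ⟨0, 10486, 0, 1048576, 0, 1048576, 0, 1048576, 0, 1048576⟩ := top_good t0_ok g_C8_00_0
def t1 : Tree Box := (.L 0 ⟨10485, 41944, 0, 1048576, 0, 1048576, 0, 1048576, 0, 1048576⟩)
theorem t1_ok : treeOK 8 id t1 ⟨10485, 41944, 0, 1048576, 0, 1048576, 0, 1048576, 0, 1048576⟩ = true := by decide +kernel
theorem t1_good : Good 8 ⟨10485, 41944, 0, 1048576, 0, 1048576, 0, 1048576, 0, 1048576⟩ := top_good t1_ok g_C8_00_1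
def t2 : Tree Box := (.S 0 4 48024 (.L 0 ⟨41943, 94372, 0, 94372, 0, 94372, 0, 94372, 1677, 48024⟩) (.S 0 0 65536 (.L 0 ⟨41943, 65536, 0, 94372, 0, 94372, 0, 94372, 48024, 94372⟩) (.L 0 ⟨65536, 94372, 0, 94372, 0, 94372, 0, 94372, 48024, 94372⟩)))
theorem t2_ok : treeOK 8 id t2 ⟨41943, 94372, 0, 1048576, 0, 1048576, 0, 1048576, 0, 1048576⟩ = true := by decide +kernel
theorem t2_good : Good 8 ⟨41943, 94372, 0, 1048576, 0, 1048576, 0, 1048576, 0, 1048576⟩ := top_good t2_ok ⟨g_C8_00_2, ⟨g_C8_00_3, g_C8_00_4⟩⟩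
def t3 : Tree Box := (.S 0 4 88133 (.S 0 4 48313 (.L 0 ⟨94371, 167773, 0, 167773, 0, 167773, 0, 167773, 8493, 48313⟩) (.L 0 ⟨94371, 167773, 0, 167773, 0, 167773, 0, 167773, 48313, 88133⟩)) (.S 0 4 127953 (.S 0 0 128450 (.L 0 ⟨94371, 128450, 0, 167773, 0, 167773, 0, 167773, 88133, 127953⟩) (.L 0 ⟨128450, 167773, 0, 167773, 0, 167773, 0, 167773, 88133, 127953⟩)) (.S 0 0 128450 (.L 0 ⟨94371, 128450, 0, 167773, 0, 167773, 0, 167773, 127953, 167773⟩) (.S 0 3 41943 (.L 0 ⟨128450, 167773, 0, 167773, 0, 167773, 0, 41943, 127953, 167773⟩) (.L 0 ⟨128450, 167773, 0, 167773, 0, 167773, 41943, 167773, 127953, 167773⟩)))))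
theorem t3_ok : treeOK 8 id t3 ⟨94371, 167773, 0, 1048576, 0, 1048576, 0, 1048576, 0, 1048576⟩ = true := by decide +kernel
theorem t3_good : Good 8 ⟨94371, 167773, 0, 1048576, 0, 1048576, 0, 1048576, 0, 1048576⟩ := top_good t3_ok ⟨⟨g_C8_00_5, g_C8_01_0⟩, ⟨⟨g_C8_01_1, g_C8_01_2⟩, ⟨g_C8_01_3, ⟨g_C8_02_0, g_C8_02_1⟩⟩⟩⟩
def t4 : Tree Box := (.S 0 4 144493 (.S 0 4 85668 (.L 0 ⟨167772, 262144, 0, 262144, 0, 248360, 0, 176161, 26843, 85668⟩) (.S 0 4 115080 (.S 0 3 44040 (.L 0 ⟨167772, 262144, 0, 262144, 0, 215085, 0, 44040, 85668, 115080⟩) (.L 0 ⟨167772, 262144, 0, 262144, 0, 215085, 44040, 176161, 85668, 115080⟩)) (.S 0 3 44040 (.S 0 0 212337 (.L 0 ⟨167772, 212337, 0, 262144, 0, 248360, 0, 44040, 115080, 144493⟩) (.S 0 4 129786 (.L 0 ⟨212337, 262144, 0, 262144, 0, 230679, 0, 44040, 115080, 129786⟩) (.S 0 3 11010 (.L 0 ⟨212337, 262144, 0, 262144, 0, 230679, 0, 11010, 129786,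 144493⟩) (.L 0 ⟨212337, 262144, 0, 262144, 0, 230679, 11010, 44040, 129786, 144493⟩)))) (.S 0 0 212337 (.L 0 ⟨167772, 212337, 44040, 262144, 44040, 248360, 44040, 158545, 115080, 144493⟩) (.L 0 ⟨212337, 262144, 44040, 262144, 44040, 248360, 44040, 158545, 115080, 144493⟩))))) (.S 0 4 203318 (.S 0 4 173905 (.S 0 3 44040 (.S 0 0 212337 (.L 0 ⟨167772, 212337, 0, 262144, 0, 262144, 0, 44040, 144493, 173905⟩) (.S 0 4 159199 (.S 0 3 11010 (.L 0 ⟨212337, 262144, 0, 262144, 0, 246826, 0, 11010, 144493, 159199⟩) (.L 0 ⟨212337, 262144, 0, 262144, 0, 246826, 11010, 44040, 144493, 159199⟩)) (.L 0 ⟨212337, 262144, 0, 262144, 0, 261979, 0, 44040, 159199, 173905⟩))) (.L 0 ⟨167772, 262144, 0, 262144, 0, 262144, 44040, 176161, 144493, 173905⟩)) (.L 0 ⟨167772, 262144, 0, 262144, 0, 262144, 0, 176161, 173905, 203318⟩)) (.L 0 ⟨167772, 262144, 0, 262144, 0, 262144, 0, 176161, 203318, 262144⟩)))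
theorem t4_ok : treeOK 8 id t4 ⟨167772, 262144, 0, 1048576, 0, 1048576, 0, 1048576, 0, 1048576⟩ = true := by decide +kernel
theorem t4_good : Good 8 ⟨167772, 262144, 0, 1048576, 0, 1048576, 0, 1048576, 0, 1048576⟩ := top_good t4_ok ⟨⟨g_C8_02_2, ⟨⟨g_C8_02_3, g_C8_03_0⟩, ⟨⟨g_C8_03_1, ⟨g_C8_03_2, ⟨g_C8_03_3, g_C8_04_0⟩⟩⟩, ⟨g_C8_04_1, g_C8_04_2⟩⟩⟩⟩, ⟨⟨⟨⟨g_C8_04_3, ⟨⟨g_C8_05_0, g_C8_05_1⟩, g_C8_05_2⟩⟩, g_C8_05_3⟩, g_C8_05_4⟩, g_C8_05_5⟩⟩
def t5 : Tree Box := (.S 0 4 191365 (.S 0 4 128450 (.L 0 ⟨262144, 317195, 0, 317195, 0, 256848, 0, 157287, 65536, 128450⟩) (.S 0 1 79299 (.L 0 ⟨262144, 317195, 0, 79299, 0, 256848, 0, 157287, 128450, 191365⟩) (.S 0 1 178422 (.L 0 ⟨262144, 317195, 79299, 178422, 0, 256848, 0, 141427, 128450, 191365⟩) (.S 0 4 159907 (.L 0 ⟨262144, 317195, 178422, 317195, 0, 256848, 0, 121602, 128450, 159907⟩) (.L 0 ⟨262144, 317195, 178422, 317195, 0, 256848,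 0, 121602, 159907, 191365⟩))))) (.L 0 ⟨262144, 317195, 0, 317195, 0, 317195, 0, 157287, 191365, 317195⟩))
theorem t5_ok : treeOK 8 id t5 ⟨262144, 317195, 0, 1048576, 0, 1048576, 0, 1048576, 0, 1048576⟩ = true := by decide +kernel
theorem t5_good : Good 8 ⟨262144, 317195, 0, 1048576, 0, 1048576, 0, 1048576, 0, 1048576⟩ := top_good t5_ok ⟨⟨g_C8_06_0, ⟨g_C8_06_1, ⟨g_C8_06_2, ⟨g_C8_06_3, g_C8_06_4⟩⟩⟩⟩, g_C8_06_5⟩
def t6 : Tree Box := (.S 0 4 232805 (.S 0 4 164378 (.L 0 ⟨317194, 377488, 0, 377488, 0, 267864, 0, 146277, 95951, 164378⟩) (.S 0 1 94372 (.L 0 ⟨317194, 377488, 0, 94372, 0, 267864, 0, 146277, 164378, 232805⟩) (.S 0 1 212337 (.L 0 ⟨317194, 377488, 94372, 212337, 0, 267864, 0, 127402, 164378, 232805⟩) (.S 0 4 198591 (.L 0 ⟨317194, 377488, 212337, 377488, 0, 267864, 0, 103809, 164378, 198591⟩) (.L 0 ⟨317194, 377488, 212337, 377488, 0, 267864, 0, 103809, 198591, 232805⟩)))))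 (.S 0 4 301232 (.L 0 ⟨317194, 377488, 0, 377488, 0, 349526, 0, 146277, 232805, 301232⟩) (.L 0 ⟨317194, 377488, 0, 377488, 0, 349526, 0, 146277, 301232, 369659⟩)))
theorem t6_ok : treeOK 8 id t6 ⟨317194, 377488, 0, 1048576, 0, 1048576, 0, 1048576, 0, 1048576⟩ = true := by decide +kernel
theorem t6_good : Good 8 ⟨317194, 377488, 0, 1048576, 0, 1048576, 0, 1048576, 0, 1048576⟩ := top_good t6_ok ⟨⟨g_C8_07_0, ⟨g_C8_07_1, ⟨g_C8_07_2, ⟨g_C8_07_3, g_C8_07_4⟩⟩⟩⟩, ⟨g_C8_07_5, g_C8_08_0⟩⟩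
def t7 : Tree Box := (.S 0 4 281130 (.S 0 4 208512 (.L 0 ⟨377487, 443024, 0, 390244, 0, 275944, 0, 134218, 135895, 208512⟩) (.S 0 1 97561 (.L 0 ⟨377487, 443024, 0, 97561, 0, 275944, 0, 134218, 208512, 281130⟩) (.S 0 1 219512 (.L 0 ⟨377487, 443024, 97561, 219512, 0, 275944, 0, 114706, 208512, 281130⟩) (.L 0 ⟨377487, 443024, 219512, 390244, 0, 275944, 0, 114706, 208512, 281130⟩)))) (.S 0 4 353747 (.L 0 ⟨377487, 443024, 0, 443024, 0, 335545, 0, 134218, 281130, 353747⟩) (.L 0 ⟨377487, 443024, 0, 443024, 0, 335545, 0, 134218, 353747, 426365⟩)))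
theorem t7_ok : treeOK 8 id t7 ⟨377487, 443024, 0, 1048576, 0, 1048576, 0, 1048576, 0, 1048576⟩ = true := by decide +kernel
theorem t7_good : Good 8 ⟨377487, 443024, 0, 1048576, 0, 1048576, 0, 1048576, 0, 1048576⟩ := top_good t7_ok ⟨⟨g_C8_08_1, ⟨g_C8_08_2, ⟨g_C8_08_3, g_C8_09_0⟩⟩⟩, ⟨g_C8_09_1, g_C8_09_2⟩⟩
def t8 : Tree Box := (.S 0 4 348380 (.S 0 4 267778 (.L 0 ⟨443023, 513803, 0, 411137, 0, 290718, 0, 121111, 187177, 267778⟩) (.L 0 ⟨443023, 513803, 0, 411137, 0, 290718, 0, 121111, 267778, 348380⟩)) (.S 0 4 428981 (.L 0 ⟨443023, 513803, 0, 513803, 0, 302777, 0, 121111, 348380, 428981⟩) (.L 0 ⟨443023, 513803, 0, 513803, 0, 302777, 0, 121111, 428981, 509583⟩)))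
theorem t8_ok : treeOK 8 id t8 ⟨443023, 513803, 0, 1048576, 0, 1048576, 0, 1048576, 0, 1048576⟩ = true := by decide +kernel
theorem t8_good : Good 8 ⟨443023, 513803, 0, 1048576, 0, 1048576, 0, 1048576, 0, 1048576⟩ := top_good t8_ok ⟨⟨g_C8_09_3, g_C8_10_0⟩, ⟨g_C8_10_1, g_C8_10_2⟩⟩
def t9 : Tree Box := (.S 0 4 414485 (.L 0 ⟨513802, 589824, 0, 524288, 0, 267387, 0, 106955, 251762, 414485⟩) (.S 0 4 495847 (.L 0 ⟨513802, 589824, 0, 524288, 0, 267387, 0, 106955, 414485, 495847⟩) (.L 0 ⟨513802, 589824, 0, 524288, 0, 267387, 0, 106955, 495847, 577209⟩)))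
theorem t9_ok : treeOK 8 id t9 ⟨513802, 589824, 0, 1048576, 0, 1048576, 0, 1048576, 0, 1048576⟩ = true := by decide +kernel
theorem t9_good : Good 8 ⟨513802, 589824, 0, 1048576, 0, 1048576, 0, 1048576, 0, 1048576⟩ := top_good t9_ok ⟨g_C8_10_3, ⟨g_C8_10_4, g_C8_11_0⟩⟩
def t10 : Tree Box := (.S 0 4 472100 (.L 0 ⟨589824, 671089, 0, 458752, 0, 229376, 0, 91751, 331776, 472100⟩) (.L 0 ⟨589824, 671089, 0, 458752, 0, 229376, 0, 91751, 472100, 612425⟩))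
theorem t10_ok : treeOK 8 id t10 ⟨589824, 671089, 0, 1048576, 0, 1048576, 0, 1048576, 0, 1048576⟩ = true := by decide +kernel
theorem t10_good : Good 8 ⟨589824, 671089, 0, 1048576, 0, 1048576, 0, 1048576, 0, 1048576⟩ := top_good t10_ok ⟨g_C8_11_1, g_C8_11_2⟩
def t11 : Tree Box := (.S 0 4 548592 (.L 0 ⟨671088, 757597, 0, 377488, 0, 188744, 0, 75498, 429495, 548592⟩) (.L 0 ⟨671088, 757597, 0, 377488, 0, 188744, 0, 75498, 548592, 667689⟩))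
theorem t11_ok : treeOK 8 id t11 ⟨671088, 757597, 0, 1048576, 0, 1048576, 0, 1048576, 0, 1048576⟩ = true := by decide +kernel
theorem t11_good : Good 8 ⟨671088, 757597, 0, 1048576, 0, 1048576, 0, 1048576, 0, 1048576⟩ := top_good t11_ok ⟨g_C8_11_3, g_C8_12_0⟩
def t12 : Tree Box := (.L 0 ⟨757596, 849347, 0, 1048576, 0, 1048576, 0, 1048576, 0, 1048576⟩)
theorem t12_ok : treeOK 8 id t12 ⟨757596, 849347, 0, 1048576, 0, 1048576, 0, 1048576, 0, 1048576⟩ = true := by decide +kernel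
theorem t12_good : Good 8 ⟨757596, 849347, 0, 1048576, 0, 1048576, 0, 1048576, 0, 1048576⟩ := top_good t12_ok g_C8_12_1
def t13 : Tree Box := (.L 0 ⟨849346, 926522, 0, 1048576, 0, 1048576, 0, 1048576, 0, 1048576⟩)
theorem t13_ok : treeOK 8 id t13 ⟨849346, 926522, 0, 1048576, 0, 1048576, 0, 1048576, 0, 1048576⟩ = true := by decide +kernel
theorem t13_good : Good 8 ⟨849346, 926522, 0, 1048576, 0, 1048576, 0, 1048576, 0, 1048576⟩ := top_good t13_ok g_C8_12_2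
def top : Tree Box := (.S 0 0 10486 (.L 0 ⟨0, 10486, 0, 1048576, 0, 1048576, 0, 1048576, 0, 1048576⟩) (.S 0 0 41944 (.L 0 ⟨10485, 41944, 0, 1048576, 0, 1048576, 0, 1048576, 0, 1048576⟩) (.S 0 0 94372 (.L 0 ⟨41943, 94372, 0, 1048576, 0, 1048576, 0, 1048576, 0, 1048576⟩) (.S 0 0 167773 (.L 0 ⟨94371, 167773, 0, 1048576, 0, 1048576, 0, 1048576, 0, 1048576⟩) (.S 0 0 262144 (.L 0 ⟨167772, 262144, 0, 1048576, 0, 1048576, 0, 1048576, 0, 1048576⟩) (.S 0 0 317195 (.L 0 ⟨262144, 317195, 0, 1048576, 0, 1048576, 0, 1048576, 0, 1048576⟩) (.S 0 0 377488 (.L 0 ⟨317194, 377488, 0, 1048576, 0, 1048576, 0, 1048576, 0, 1048576⟩) (.S 0 0 443024 (.L 0 ⟨377487, 443024, 0, 1048576, 0, 1048576, 0, 1048576, 0, 1048576⟩) (.S 0 0 513803 (.L 0 ⟨443023, 513803, 0, 1048576, 0, 1048576, 0, 1048576, 0, 1048576⟩) (.S 0 0 589824 (.L 0 ⟨513802, 589824, 0, 1048576, 0, 1048576, 0, 1048576, 0, 1048576⟩) (.S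 0 0 671089 (.L 0 ⟨589824, 671089, 0, 1048576, 0, 1048576, 0, 1048576, 0, 1048576⟩) (.S 0 0 757597 (.L 0 ⟨671088, 757597, 0, 1048576, 0, 1048576, 0, 1048576, 0, 1048576⟩) (.S 0 0 849347 (.L 0 ⟨757596, 849347, 0, 1048576, 0, 1048576, 0, 1048576, 0, 1048576⟩) (.L 0 ⟨849346, 926522, 0, 1048576, 0, 1048576, 0, 1048576, 0, 1048576⟩))))))))))))))
theorem top_ok : treeOK 8 id top ⟨0, 926522, 0, 1048576, 0, 1048576, 0, 1048576, 0, 1048576⟩ = true := by decide +kernel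
theorem good : Good 8 ⟨0, 926522, 0, 1048576, 0, 1048576, 0, 1048576, 0, 1048576⟩ := top_good top_ok ⟨t0_good, ⟨t1_good, ⟨t2_good, ⟨t3_good, ⟨t4_good, ⟨t5_good, ⟨t6_good, ⟨t7_good, ⟨t8_good, ⟨t9_good, ⟨t10_good, ⟨t11_good, ⟨t12_good, t13_good⟩⟩⟩⟩⟩⟩⟩⟩⟩⟩⟩⟩⟩

end Pool.Agent.H61.SC.D.Top8
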